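import Pool.Agent.Helper95.PW.Stmts

set_option autoImplicit false

namespace Pool.Agent.Helper95.PW

open MeasureTheory Filter

theorem hf_cd {E : Type*} [NormedAddCommGroup E] [NormedSpace ℝ E] {f : E → ℝ}
    (hf : ContDiff ℝ (⊤ : ℕ∞) f) (e : E) : ContDiff ℝ (⊤ : ℕ∞) (fun y => fderiv ℝ f y e) :=
  (hf.fderiv_right (m := (⊤ : ℕ∞)) (by norm_num)).clm_apply contDiff_const

theorem hf_df {E : Type*} [NormedAddCommGroup E] [NormedSpace ℝ E] {f : E → ℝ}
    (hf : ContDiff ℝ (⊤ : ℕ∞) f) : Differentiable ℝ f :=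
  hf.differentiable (by norm_num)

theorem hf_mul {n : ℕ} (k : Fin n) (i : Fin 3) {a b : Cf n → ℝ} (x : Cf n)
    (ha : DifferentiableAt ℝ a x) (hb : DifferentiableAt ℝ b x) :
    dv k i (fun x => a x * b x) x = dv k i a x * b x + a x * dv k i b x := by
  unfold dv
  rw [fderiv_fun_mul ha hb]
  simp only [ContinuousLinearMap.add_apply, ContinuousLinearMap.smul_apply, smul_eq_mul]
  ring

theorem hf_add {n : ℕ} (k : Fin n) (i : Fin 3) {a b : Cf n → ℝ} (x : Cf n)
    (ha : DifferentiableAt ℝ a x) (hb : DifferentiableAt ℝ b x) :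
    dv k i (fun x => a x + b x) x = dv k i a x + dv k i b x := by
  unfold dv
  rw [fderiv_fun_add ha hb]
  simp only [ContinuousLinearMap.add_apply]

theorem hf_comp {n : ℕ} (g : R3 → ℝ) (hg : Differentiable ℝ g) (j : Fin n) (x : Cf n) :
    HasFDerivAt (fun x : Cf n => g (x j))
      ((fderiv ℝ g (x j)).comp (ContinuousLinearMap.proj (R := ℝ) (φ := fun _ : Fin n => R3) j)) x :=
  (hg (x j)).hasFDerivAt.comp x (ContinuousLinearMap.proj (R := ℝ) (φ := fun _ : Fin n => R3)
    j).hasFDerivAt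

theorem hf_one {n : ℕ} (g : R3 → ℝ) (hg : Differentiable ℝ g) (k : Fin n) (i : Fin 3) (x : Cf n) :
    dv k i (fun x => g (x k)) x = pd i g (x k) := by
  unfold dv pd
  rw [(hf_comp g hg k x).fderiv]
  simp

theorem hf_sum {n : ℕ} (g : R3 → ℝ) (hg : Differentiable ℝ g) (k : Fin n) (i : Fin 3) (x : Cf n) :
    dv k i (fun x => ∑ j, g (x j)) x = pd i g (x k) := by
  unfold dv pd
  have h1 : HasFDerivAt (fun x : Cf n => ∑ j, g (x j)) (∑ j, (fderiv ℝ g (x j)).comp
      (ContinuousLinearMap.proj (R := ℝ) (φ := fun _ : Fin n => R3) j)) x :=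
    HasFDerivAt.fun_sum fun j _ => hf_comp g hg j x
  rw [h1.fderiv, _root_.sum_apply, Finset.sum_eq_single k]
  · simp
  · intro j _ hj
    simp [hj]
  · intro h
    exact absurd (Finset.mem_univ k) h

theorem st_HF : ST_HF := by
  intro n Z g v x hg hv
  have hgd := hf_df hg
  have hvd := hf_df hv
  have hF : Differentiable ℝ (fun x : Cf n => ∑ j, g (x j)) := fun y =>
    (HasFDerivAt.fun_sum fun j _ => hf_comp g hgd j y).differentiableAt
  have e1 : ∀ (k : Fin n) (i : Fin 3), dv k i (Fg g v) =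
      fun x => pd i g (x k) * v x + (∑ j, g (x j)) * dv k i v x := by
    intro k i
    funext y
    have h := hf_mul k i (a := fun x : Cf n => ∑ j, g (x j)) (b := v) y (hF y) (hvd y)
    rw [hf_sum g hgd k i y] at h
    exact h
  have hpd : ∀ i : Fin 3, Differentiable ℝ (pd i g) := fun i => hf_df (hf_cd hg _)
  have hdv : ∀ (k : Fin n) (i : Fin 3), Differentiable ℝ (dv k i v) := fun k i =>
    hf_df (hf_cd hv _)
  have e2 : ∀ (k : Fin n) (i : Fin 3), dv k i (dv k i (Fg g v)) x =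
      pd i (pd i g) (x k) * v x + 2 * (pd i g (x k) * dv k i v x) +
        (∑ j, g (x j)) * dv k i (dv k i v) x := by
    intro k i
    rw [e1 k i]
    have d1 : DifferentiableAt ℝ (fun x : Cf n => pd i g (x k)) x :=
      (hf_comp (pd i g) (hpd i) k x).differentiableAt
    have h1 := hf_add k i (a := fun x : Cf n => pd i g (x k) * v x)
      (b := fun x : Cf n => (∑ j, g (x j)) * dv k i v x) x (d1.mul (hvd x))
      ((hF x).mul (hdv k i x))
    rw [h1, hf_mul k i x d1 (hvd x), hf_mul k i x (hF x) (hdv k i x), hf_sum g hgd k i x,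
      hf_one (pd i g) (hpd i) k i x]
    ring
  unfold hm
  have e3 : ∑ k, ∑ i, dv k i (dv k i (Fg g v)) x =
      2 * Pg g v x + (∑ j, g (x j)) * ∑ k, ∑ i, dv k i (dv k i v) x := by
    unfold Pg lap
    rw [Finset.mul_sum, Finset.mul_sum, ← Finset.sum_add_distrib]
    refine Finset.sum_congr rfl fun k _ => ?_
    rw [Finset.sum_congr rfl fun i _ => e2 k i, Finset.sum_add_distrib, Finset.sum_add_distrib,
      ← Finset.mul_sum, ← Finset.mul_sum, ← Finset.sum_mul]
    ring
  rw [e3]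
  unfold Fg
  ring

end Pool.Agent.Helper95.PW
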